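import Pool.Agent.PFE.StmtsE1

/-! Squad PFE, part E1, row SPC: `A` splits over `C` with a projective complement. -/

set_option autoImplicit false

open scoped BigOperators

noncomputable section

namespace Pool.Agent.PFE.H58

open Pool.Agent.PFE Pool.Agent.PFC.B1

/-- `σ` is the identity in degree `1`. -/
theorem sg_deg_one {K S X : Type} [Field K] [Ring S] [Algebra K S] [Group X] [Fintype X]
    (G : GS K S X) (χ : X →* K) (w : S) (hw : G.c 1 w = w) : G.sg χ w = w := by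
  classical
  unfold GS.sg
  rw [LinearMap.sum_apply, Finset.sum_eq_single 1]
  · rw [LinearMap.smul_apply, map_one, one_smul, hw]
  · intro x _ hx
    rw [LinearMap.smul_apply, ← hw, G.co x 1 w hx, smul_zero]
  · intro h
    exact absurd (Finset.mem_univ _) h

theorem spc (hcuf : CufStmt) (hprj : PrjStmt) (htwt : TwtStmt) : SpcStmt := by
  intro K A X S J Ω Ω' C _ _ _ _ _ _ _ _ _ _ _ _ y l χ D L F E
  obtain ⟨_, _, c, hc1, hc2, hc3, _⟩ := hcuf K A X S J Ω Ω' C y l χ D L F E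
  obtain ⟨pr, hp1, hp2, hp3, hp4⟩ := hprj K A X S J Ω Ω' C y l χ D L F E
  obtain ⟨ψ, hψ⟩ := htwt K A X S J Ω Ω' C y l χ D L F E pr hp1 hp2 hp3
  have hjuu : E.j E.u * E.j E.u' = 1 := by rw [← map_mul, E.uu, map_one]
  set ρ : S → A := fun s => E.j (E.Q.i s) with hρ
  set W : A := ρ F.w with hW
  have hsep : ∑ o, ρ (F.f.b o) * W * ρ (F.f.b' o) = 1 := by
    have h := congrArg (fun s => E.j (E.Q.i s)) F.sep
    simp only [map_sum, map_mul, map_one] at h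
    exact h
  have hyW : ∀ k : ℕ, W * y ^ k = y ^ k * W := by
    have h1 : y * W = W * y := by
      have h := congrArg E.j (E.Q.ys F.w)
      rw [sg_deg_one L.toGS χ F.w F.w1, map_mul, map_mul, E.jy] at h
      exact h
    intro k
    have h2 : Commute W (y ^ k) := Commute.pow_right (Eq.symm h1) k
    exact h2
  have hB : ∀ p : Ω × Fin l, E.j (c.b p) = ρ (F.f.b p.1) * y ^ (p.2 : ℕ) := by
    intro p
    rw [hc2, map_mul, map_pow, E.jy]
  have hB' : ∀ p : Ω × Fin l, E.j (c.b' p) = E.j E.u' * (y ^ (l - 1 - (p.2 : ℕ)) * ρ (F.f.b' p.1)) := by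
    intro p
    rw [hc3, map_mul, map_mul, map_pow, E.jy]
  have hq : ∀ x, x - E.j (pr x) = ∑ o, ∑ o', ρ (F.f.b o) * W *
      (ρ (F.f.b' o) * x * ρ (F.f.b o') * W - E.j (pr (ρ (F.f.b' o) * x * ρ (F.f.b o') * W))) *
      ρ (F.f.b' o') := by
    intro x
    have h1 : ∀ o o', ρ (F.f.b o) * W *
      (ρ (F.f.b' o) * x * ρ (F.f.b o') * W - E.j (pr (ρ (F.f.b' o) * x * ρ (F.f.b o') * W))) *
      ρ (F.f.b' o') = (ρ (F.f.b o) * W * ρ (F.f.b' o)) * (x - E.j (pr x)) *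
        (ρ (F.f.b o') * W * ρ (F.f.b' o')) := by
      intro o o'
      have h2 : pr (ρ (F.f.b' o) * x * ρ (F.f.b o') * W) =
          E.Q.i (F.f.b' o) * pr x * E.Q.i (F.f.b o') * E.Q.i F.w := by
        rw [hW, hρ]
        simp only []
        rw [hp3, hp3, hp2]
      rw [h2]
      simp only [map_mul]
      show ρ (F.f.b o) * W * (ρ (F.f.b' o) * x * ρ (F.f.b o') * W - ρ (F.f.b' o) * E.j (pr x) *
        ρ (F.f.b o') * W) * ρ (F.f.b' o') = _
      noncomm_ring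
    calc x - E.j (pr x) = 1 * (x - E.j (pr x)) * 1 := by rw [one_mul, mul_one]
      _ = (∑ o, ρ (F.f.b o) * W * ρ (F.f.b' o)) * (x - E.j (pr x)) *
          (∑ o', ρ (F.f.b o') * W * ρ (F.f.b' o')) := by rw [hsep]
      _ = ∑ o, ∑ o', (ρ (F.f.b o) * W * ρ (F.f.b' o)) * (x - E.j (pr x)) *
          (ρ (F.f.b o') * W * ρ (F.f.b' o')) := by
        rw [Finset.sum_mul, Finset.sum_mul]
        exact Finset.sum_congr rfl fun o _ => Finset.mul_sum _ _ _
      _ = _ := Finset.sum_congr rfl fun o _ => Finset.sum_congr rfl fun o' _ => (h1 o o').symm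
  let a : A →ₗ[K] A := (LinearMap.mulRight K (E.j E.u)).comp ((LinearMap.mulLeft K W).comp
    (ψ.comp ((LinearMap.mulRight K W).comp (LinearMap.mulLeft K (E.j E.u)))))
  have ha : ∀ z, a z = W * ψ (E.j E.u * z * W) * E.j E.u := fun z => rfl
  have hterm : ∀ (x : A) (p p' : Ω × Fin l), E.j (c.b p) * a (E.j (c.b' p) * x * E.j (c.b p')) *
      E.j (c.b' p') = ρ (F.f.b p.1) * W * (y ^ (p.2 : ℕ) * ψ (y ^ (l - 1 - (p.2 : ℕ)) *
        (ρ (F.f.b' p.1) * x * ρ (F.f.b p'.1) * W) * y ^ (p'.2 : ℕ)) * y ^ (l - 1 - (p'.2 : ℕ))) *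
        ρ (F.f.b' p'.1) := by
    intro x p p'
    rw [ha, hB, hB', hB, hB']
    have h1 : E.j E.u * (E.j E.u' * (y ^ (l - 1 - (p.2 : ℕ)) * ρ (F.f.b' p.1)) * x *
        (ρ (F.f.b p'.1) * y ^ (p'.2 : ℕ))) * W = y ^ (l - 1 - (p.2 : ℕ)) *
        (ρ (F.f.b' p.1) * x * ρ (F.f.b p'.1) * W) * y ^ (p'.2 : ℕ) := by
      calc _ = (E.j E.u * E.j E.u') * (y ^ (l - 1 - (p.2 : ℕ)) * ρ (F.f.b' p.1) * x *
            ρ (F.f.b p'.1)) * (y ^ (p'.2 : ℕ) * W) := by noncomm_ring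
        _ = _ := by
          rw [hjuu, ← hyW]
          noncomm_ring
    rw [h1]
    calc _ = ρ (F.f.b p.1) * (y ^ (p.2 : ℕ) * W) * ψ (y ^ (l - 1 - (p.2 : ℕ)) *
        (ρ (F.f.b' p.1) * x * ρ (F.f.b p'.1) * W) * y ^ (p'.2 : ℕ)) * (E.j E.u * E.j E.u') *
        (y ^ (l - 1 - (p'.2 : ℕ)) * ρ (F.f.b' p'.1)) := by simp only [mul_assoc]
      _ = _ := by
        rw [hjuu, ← hyW]
        simp only [mul_assoc, one_mul]
  refine ⟨c, ⟨E.j, pr, hp1, hp2, hp3, a, ?_⟩, hc1, rfl, hp4⟩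
  intro x
  have hl : 2 ≤ l := D.hl
  have h3 : ∀ z : A, z - E.j (pr z) = ∑ i : Fin l, ∑ k : Fin l,
      y ^ (i : ℕ) * ψ (y ^ (l - 1 - (i : ℕ)) * z * y ^ (k : ℕ)) * y ^ (l - 1 - (k : ℕ)) := by
    intro z
    rw [hψ z, Finset.sum_range (fun i => ∑ k ∈ Finset.range l,
      y ^ i * ψ (y ^ (l - 1 - i) * z * y ^ (l - 1 - k)) * y ^ k)]
    refine Finset.sum_congr rfl fun i _ => ?_
    rw [← Finset.sum_range_reflect, Finset.sum_range]
    refine Finset.sum_congr rfl fun k _ => ?_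
    have hk : l - 1 - (l - 1 - (k : ℕ)) = (k : ℕ) := by omega
    rw [hk]
  rw [hq x, Fintype.sum_prod_type]
  refine Finset.sum_congr rfl fun o _ => ?_
  have h4 : ∀ o' : Ω, ρ (F.f.b o) * W *
      (ρ (F.f.b' o) * x * ρ (F.f.b o') * W - E.j (pr (ρ (F.f.b' o) * x * ρ (F.f.b o') * W))) *
      ρ (F.f.b' o') = ∑ i : Fin l, ∑ k : Fin l, ρ (F.f.b o) * W * (y ^ (i : ℕ) *
        ψ (y ^ (l - 1 - (i : ℕ)) * (ρ (F.f.b' o) * x * ρ (F.f.b o') * W) * y ^ (k : ℕ)) *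
        y ^ (l - 1 - (k : ℕ))) * ρ (F.f.b' o') := by
    intro o'
    rw [h3, Finset.mul_sum, Finset.sum_mul]
    refine Finset.sum_congr rfl fun i _ => ?_
    rw [Finset.mul_sum, Finset.sum_mul]
  simp only [h4]
  refine Eq.trans ?_ Finset.sum_comm
  refine Finset.sum_congr rfl fun i _ => ?_
  rw [Fintype.sum_prod_type]
  refine Finset.sum_congr rfl fun o' _ => ?_
  exact Finset.sum_congr rfl fun k _ => hterm x (o, i) (o', k)

end Pool.Agent.PFE.H58
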