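import Pool.Agent.PFE.StmtsE2c
import Pool.Agent.PFC.B5c.Lcn_helper65

/-! Squad PFE, part E2, row FLT: the input `FLv`. -/

set_option autoImplicit false
set_option linter.unusedSectionVars false

open scoped BigOperators

noncomputable section

namespace Pool.Agent.PFE.H58

open MulOpposite
open Pool.Agent.PFC
open Pool.Agent.PFC (tw)
open Pool.Agent.PFD
open Pool.Agent.PFD.D2

section flt

variable {F V V1 A : Type} [Field F] [CommGroup V] [CommGroup V1] [Fintype V1] [Ring A]
  [Algebra F A]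

theorem hom_ext' (f g : MonoidAlgebra F V →ₐ[F] A)
    (h : ∀ v, f (MonoidAlgebra.of F V v) = g (MonoidAlgebra.of F V v)) (γ : MonoidAlgebra F V) :
    f γ = g γ := by
  have h1 : f.toLinearMap = g.toLinearMap := by
    apply MonoidAlgebra.lhom_ext'
    intro v
    apply LinearMap.ext_ring
    exact h v
  exact LinearMap.congr_fun h1 γ

/-- `j ∘ il (of) i = il α i` -/
theorem j_il (α : V →* A) (i : V1 →* V) (j : MonoidAlgebra F V →ₐ[F] A)
    (hj : ∀ u, j (MonoidAlgebra.of F V u) = α u) (γ : MonoidAlgebra F V1) :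
    j (il (MonoidAlgebra.of F V) i γ) = il α i γ := by
  have h := hom_ext' (j.comp (il (MonoidAlgebra.of F V) i)) (il α i) (by
    intro v
    have h1 : il (MonoidAlgebra.of F V) i (MonoidAlgebra.of F V1 v) =
        MonoidAlgebra.of F V (i v) := by
      unfold il
      rw [MonoidAlgebra.lift_of]
      rfl
    have h2 : il α i (MonoidAlgebra.of F V1 v) = α (i v) := by
      unfold il
      rw [MonoidAlgebra.lift_of]
      rfl
    change j (il (MonoidAlgebra.of F V) i (MonoidAlgebra.of F V1 v)) =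
      il α i (MonoidAlgebra.of F V1 v)
    rw [h1, h2, hj]) γ
  exact h

/-- the rule for a normalising element -/
theorem nrm (α : V →* A) (i : V1 →* V) (σ : MulAut V1) (w : A)
    (h : ∀ v, w * α (i v) = α (i (σ v)) * w) (γ : MonoidAlgebra F V1) :
    w * il α i γ = il α i (MonoidAlgebra.domCongr F F σ γ) * w := by
  have h1 : (LinearMap.mulLeft F w).comp (il α i).toLinearMap =
      (LinearMap.mulRight F w).comp ((il α i).toLinearMap.comp
        (MonoidAlgebra.domCongr F F σ).toLinearMap) := by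
    apply MonoidAlgebra.lhom_ext'
    intro v
    apply LinearMap.ext_ring
    change w * il α i (MonoidAlgebra.of F V1 v) =
      il α i (MonoidAlgebra.domCongr F F σ (MonoidAlgebra.of F V1 v)) * w
    rw [MonoidAlgebra.of_apply, MonoidAlgebra.domCongr_single, ← MonoidAlgebra.of_apply,
      ← MonoidAlgebra.of_apply]
    unfold il
    rw [MonoidAlgebra.lift_of, MonoidAlgebra.lift_of]
    exact h v
  exact LinearMap.congr_fun h1 γ

end flt

/-- elements of the centraliser of `V` are units or nilpotent -/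
theorem loc_cz {F V A : Type} [Field F] [CommGroup V] [Ring A] [Algebra F A]
    (α : V →* A) (hfin : FiniteDimensional F A) (hloc : IsLocalRing (Cz F α ⊤)) (a : A)
    (ha : ∀ u, α u * a = a * α u) : IsUnit a ∨ IsNilpotent a := by
  have hm : a ∈ Cz F α ⊤ := by
    unfold Cz
    rw [Subalgebra.mem_centralizer_iff]
    rintro _ ⟨u, _, rfl⟩
    exact ha u
  rcases Pool.Agent.PFC.B5c.H65.unit_or_nil (F := F) hloc (⟨a, hm⟩ : Cz F α ⊤) with h | h
  · left
    exact h.map (Cz F α ⊤).subtype
  · right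
    exact h.map (Cz F α ⊤).subtype

/-- Row FLT. -/
theorem flt (opv : OpvStmt) (yft : YftStmt) : FltStmt := by
  intro ℓ _ F V E A V1 C _ _ _ _ _ _ _ _ _ _ _ φ NN α z T i W _ θ Y G hC hP hT hV1 hi hd hs hW
    hCE hEC hQ hGy hGw
  obtain ⟨N, K, Om, fN, fK, fOm, aOm, S, hS⟩ := opv ℓ F V E A φ NN z T hC.pg hC.cop
    (fun e he => hC.fa e he)
  obtain ⟨Ω, Ω', fΩ, fΩ', aΩ, aΩ', ⟨fr⟩⟩ := yft ℓ F V E V1 C A N K Om φ NN i W Y G θ S hV1 hi hd hs
    hW hEC hQ hGy hGw
  have hj : ∀ u, S.j (MonoidAlgebra.of F V u) = α u := by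
    intro u
    rw [hS, ← hT u]
    rfl
  have hjy : S.j G.y = il α i Y.y := by
    rw [hGy, j_il α i S.j hj]
  refine ⟨N, K, Ω, Ω', fN, fK, fΩ, fΩ', aΩ, aΩ',
    { j := S.j
      pr := S.pr
      pr_j := S.pr_j
      pr_l := S.pr_l
      pr_r := S.pr_r
      mu := S.mu
      mus := S.mus
      mun := S.mun
      orth := S.orth
      sep := S.sep
      x := S.x
      y := S.y
      e1 := S.e1
      e2 := S.e2
      unt := S.unt
      fr := fr
      loc := ?_
      uni := ?_ }, hj⟩
  · intro a ha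
    apply loc_cz α hP.fin hP.loc a
    intro u
    rw [← hj u]
    exact ha _
  · intro x
    obtain ⟨e, he⟩ := hCE x
    obtain ⟨w, w', h1, h2, h3⟩ := hP.uni e
    have h4 : w * il α i Y.y = il α i (MonoidAlgebra.domCongr F F (θ x) Y.y) * w := by
      apply nrm α i (θ x) w
      intro v
      rw [h3, he]
    rw [Y.ye, map_smul, smul_mul_assoc] at h4
    refine ⟨w', w, h2, h1, ?_⟩
    rw [hjy]
    change il α i Y.y * w' = Y.χ (θ x) • (w' * il α i Y.y)
    calc il α i Y.y * w' = w' * (w * il α i Y.y) * w' := by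
          rw [← mul_assoc w', h2, one_mul]
      _ = w' * (Y.χ (θ x) • (il α i Y.y * w)) * w' := by rw [h4]
      _ = Y.χ (θ x) • (w' * il α i Y.y) := by
          rw [mul_smul_comm, smul_mul_assoc]
          congr 1
          rw [mul_assoc, mul_assoc, h1, mul_one]

end Pool.Agent.PFE.H58
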