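import Pool.Agent.PFE.StmtsE2c

/-! Squad PFE, part E2, row SGY: a model of the graded algebra is the local algebra at `y`. -/

set_option autoImplicit false
set_option linter.unusedSectionVars false

open scoped BigOperators

noncomputable section

namespace Pool.Agent.PFE.H58

open Pool.Agent.PFE Pool.Agent.PFC

section one

variable {F V V1 A : Type} [Field F] [CommGroup V] [CommGroup V1] [Fintype V1] [Ring A]
  [Algebra F A] (α : V →* A) (i : V1 →* V)

theorem il_of (v : V1) : il α i (MonoidAlgebra.of F V1 v) = α (i v) := by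
  unfold il
  rw [MonoidAlgebra.lift_of]
  rfl

theorem dc_of (σ : MulAut V1) (v : V1) :
    MonoidAlgebra.domCongr F F σ (MonoidAlgebra.of F V1 v) = MonoidAlgebra.of F V1 (σ v) := by
  rw [MonoidAlgebra.of_apply, MonoidAlgebra.of_apply, MonoidAlgebra.domCongr_single]

theorem lin_ext {M : Type} [AddCommMonoid M] [Module F M] (f g : MonoidAlgebra F V1 →ₗ[F] M)
    (h : ∀ v, f (MonoidAlgebra.of F V1 v) = g (MonoidAlgebra.of F V1 v)) : f = g := by
  apply MonoidAlgebra.lhom_ext'
  intro v
  apply LinearMap.ext_ring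
  exact h v

theorem memNt (σ : MulAut V1) (a : A) :
    a ∈ Nt F α i σ ↔ ∀ v, α (i v) * a = a * α (i (σ v)) := by
  have m1 : ∀ x : V, α x * α x⁻¹ = 1 := fun x => by rw [← map_mul, mul_inv_cancel, map_one]
  have m2 : ∀ x : V, α x⁻¹ * α x = 1 := fun x => by rw [← map_mul, inv_mul_cancel, map_one]
  constructor
  · intro h v
    have h1 : α (i v) * (a * α (i (σ v))⁻¹) = a := h v trivial
    calc α (i v) * a = α (i v) * (a * (α (i (σ v))⁻¹ * α (i (σ v)))) := by
          rw [m2, mul_one]
      _ = α (i v) * (a * α (i (σ v))⁻¹) * α (i (σ v)) := by simp only [mul_assoc]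
      _ = a * α (i (σ v)) := by rw [h1]
  · intro h v _
    change α (i v) * (a * α (i (σ v))⁻¹) = a
    rw [← mul_assoc, h v, mul_assoc, m1, mul_one]

/-- the rule for all elements of the group algebra -/
theorem rule (σ : MulAut V1) (a : A) (ha : a ∈ Nt F α i σ) (γ : MonoidAlgebra F V1) :
    il α i γ * a = a * il α i (MonoidAlgebra.domCongr F F σ γ) := by
  have h := lin_ext ((LinearMap.mulRight F a).comp (il α i).toLinearMap)
    ((LinearMap.mulLeft F a).comp ((il α i).toLinearMap.comp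
      (MonoidAlgebra.domCongr F F σ).toLinearMap)) (by
      intro v
      change il α i (MonoidAlgebra.of F V1 v) * a =
        a * il α i (MonoidAlgebra.domCongr F F σ (MonoidAlgebra.of F V1 v))
      rw [dc_of, il_of, il_of]
      exact (memNt α i σ a).1 ha v)
  exact LinearMap.congr_fun h γ

/-- (1) -/
theorem nx_iff {l : ℕ} (Y : Y1 F V1 l) (σ : MulAut V1) (a : A) :
    il α i Y.y * a = Y.χ σ • (a * il α i Y.y) ↔ a ∈ Nt F α i σ := by
  constructor
  · intro h
    rw [memNt]
    intro v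
    have hk : ∀ k : ℕ, il α i Y.y ^ k * a = (Y.χ σ) ^ k • (a * il α i Y.y ^ k) := by
      intro k
      induction k with
      | zero => rw [pow_zero, pow_zero, one_smul, one_mul, mul_one]
      | succ k ih =>
        rw [pow_succ', mul_assoc, ih, mul_smul_comm, ← mul_assoc, h, smul_mul_assoc, smul_smul,
          mul_assoc, ← pow_succ' (il α i Y.y) k, ← pow_succ]
    have h1 := Y.ex (MonoidAlgebra.of F V1 v)
    have h2 : α (i v) = ∑ k ∈ Finset.range l,
        Y.co k (MonoidAlgebra.of F V1 v) • il α i Y.y ^ k := by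
      rw [← il_of (F := F) α i v]
      conv_lhs => rw [← h1]
      rw [map_sum]
      refine Finset.sum_congr rfl fun k _ => ?_
      rw [map_smul, map_pow]
    have h3 : α (i (σ v)) = ∑ k ∈ Finset.range l,
        Y.co k (MonoidAlgebra.of F V1 v) • ((Y.χ σ) ^ k • il α i Y.y ^ k) := by
      rw [← il_of (F := F) α i (σ v), ← dc_of]
      conv_lhs => rw [← h1]
      rw [map_sum, map_sum]
      refine Finset.sum_congr rfl fun k _ => ?_
      rw [map_smul, map_smul, map_pow, map_pow, Y.ye, map_smul, smul_pow]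
    rw [h2, h3, Finset.sum_mul, Finset.mul_sum]
    refine Finset.sum_congr rfl fun k _ => ?_
    rw [smul_mul_assoc, hk k, mul_smul_comm, mul_smul_comm]
  · intro h
    rw [rule α i σ a h, Y.ye, map_smul, mul_smul_comm]

end one

section two

variable {F V V1 C A : Type} [Field F] [CommGroup V] [CommGroup V1] [Fintype V1] [CommGroup C]
  [Ring A] [Algebra F A] (α : V →* A) (i : V1 →* V) (θ : C →* MulAut V1)

theorem nx_mem {l : ℕ} (Y : Y1 F V1 l) (c : C) (a : A) :
    a ∈ Nx (il α i Y.y) (Y.χ.comp θ) c ↔ a ∈ Nt F α i (θ c) :=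
  nx_iff α i Y (θ c) a

theorem comm_il (γ δ : MonoidAlgebra F V1) : il α i γ * il α i δ = il α i δ * il α i γ := by
  rw [← map_mul, ← map_mul, mul_comm]

theorem il_mul_nx {l : ℕ} (Y : Y1 F V1 l) (c : C) (a : A) (γ : MonoidAlgebra F V1)
    (ha : a ∈ Nx (il α i Y.y) (Y.χ.comp θ) c) :
    il α i γ * a ∈ Nx (il α i Y.y) (Y.χ.comp θ) c := by
  have h : il α i Y.y * a = (Y.χ.comp θ) c • (a * il α i Y.y) := ha
  show il α i Y.y * (il α i γ * a) = (Y.χ.comp θ) c • (il α i γ * a * il α i Y.y)
  rw [← mul_assoc, comm_il, mul_assoc, h, mul_smul_comm, mul_assoc]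

/-- the trace of `V1` is the twisted trace of `y` -/
theorem tr_tx {l : ℕ} (Y : Y1 F V1 l) (z : MonoidAlgebra F V1)
    (hz : ∀ (M : Type) [AddCommGroup M] [Module F M]
        (β : MonoidAlgebra F V1 →ₗ[F] MonoidAlgebra F V1 →ₗ[F] M),
        ∑ v : V1, β (MonoidAlgebra.of F V1 v) (MonoidAlgebra.of F V1 v⁻¹) =
          ∑ k ∈ Finset.range l, β (Y.y ^ k) (z * Y.y ^ (l - 1 - k)))
    (σ : MulAut V1) (a : A) :
    Tr F α i σ a = Tx (il α i Y.y) l (Y.χ σ)
      (a * il α i (MonoidAlgebra.domCongr F F σ z)) := by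
  let β : MonoidAlgebra F V1 →ₗ[F] MonoidAlgebra F V1 →ₗ[F] A :=
    (LinearMap.mul F A).compl₁₂ ((LinearMap.mulRight F a).comp (il α i).toLinearMap)
      ((il α i).toLinearMap.comp (MonoidAlgebra.domCongr F F σ).toLinearMap)
  have hβ : ∀ γ δ, β γ δ = il α i γ * a * il α i (MonoidAlgebra.domCongr F F σ δ) :=
    fun γ δ => rfl
  have h := hz A β
  have h1 : Tr F α i σ a = ∑ v : V1, β (MonoidAlgebra.of F V1 v) (MonoidAlgebra.of F V1 v⁻¹) := by
    unfold Tr
    rw [LinearMap.sum_apply]
    refine Finset.sum_congr rfl fun v _ => ?_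
    rw [hβ, dc_of, il_of, il_of]
    change α (i v) * (a * α (i (σ v))⁻¹) = _
    rw [map_inv σ, map_inv i, mul_assoc]
  rw [h1, h]
  unfold Tx
  refine Finset.sum_congr rfl fun k _ => ?_
  rw [hβ, map_mul, map_pow, map_pow, Y.ye, smul_pow, mul_smul_comm, map_smul, mul_smul_comm,
    map_mul, map_pow]
  simp only [mul_assoc]

theorem it_jx {l : ℕ} (Y : Y1 F V1 l) (z z' : MonoidAlgebra F V1) (hzz : z * z' = 1)
    (hz : ∀ (M : Type) [AddCommGroup M] [Module F M]
        (β : MonoidAlgebra F V1 →ₗ[F] MonoidAlgebra F V1 →ₗ[F] M),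
        ∑ v : V1, β (MonoidAlgebra.of F V1 v) (MonoidAlgebra.of F V1 v⁻¹) =
          ∑ k ∈ Finset.range l, β (Y.y ^ k) (z * Y.y ^ (l - 1 - k)))
    (c : C) (a : A) :
    a ∈ Jx (il α i Y.y) l (Y.χ.comp θ) c ↔ a ∈ It F α i (θ c) := by
  constructor
  · intro h
    refine Submodule.span_induction (p := fun a _ => a ∈ It F α i (θ c)) ?_ ?_ ?_ ?_ h
    · rintro b (⟨d, rfl⟩ | ⟨n, hn, rfl⟩)
      · apply Submodule.subset_span
        left
        refine ⟨d * il α i (MonoidAlgebra.domCongr F F (θ c) z'), ?_⟩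
        rw [tr_tx α i Y z hz, mul_assoc, ← map_mul, ← map_mul, mul_comm z' z, hzz, map_one,
          map_one, mul_one]
        rfl
      · obtain ⟨v, t, ht⟩ := Y.y1
        apply Submodule.subset_span
        right
        refine ⟨v, il α i t * n, (nx_mem α i θ Y c _).1 (il_mul_nx α i θ Y c n t hn), ?_⟩
        conv_lhs => rw [ht]
        rw [map_mul, map_sub, map_one, il_of, sub_mul, sub_mul, one_mul, mul_assoc]
    · exact Submodule.zero_mem _
    · intro b d _ _ hb hd
      exact Submodule.add_mem _ hb hd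
    · intro r b _ hb
      exact Submodule.smul_mem _ _ hb
  · intro h
    refine Submodule.span_induction
      (p := fun a _ => a ∈ Jx (il α i Y.y) l (Y.χ.comp θ) c) ?_ ?_ ?_ ?_ h
    · rintro b (⟨d, rfl⟩ | ⟨v, n, hn, rfl⟩)
      · apply Submodule.subset_span
        left
        exact ⟨_, tr_tx α i Y z hz (θ c) d⟩
      · obtain ⟨t, ht⟩ := Y.v1 v
        apply Submodule.subset_span
        right
        refine ⟨il α i t * n, il_mul_nx α i θ Y c n t ((nx_mem α i θ Y c n).2 hn), ?_⟩
        rw [← mul_assoc, ← map_mul, ← ht, map_sub, map_one, il_of, sub_mul, one_mul]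
    · exact Submodule.zero_mem _
    · intro b d _ _ hb hd
      exact Submodule.add_mem _ hb hd
    · intro r b _ hb
      exact Submodule.smul_mem _ _ hb

end two

section three

variable {F V V1 C A S : Type} [Field F] [CommGroup V] [CommGroup V1] [Fintype V1] [CommGroup C]
  [Fintype C] [Ring A] [Algebra F A] [Ring S] [Algebra F S] {α : V →* A} {i : V1 →* V}
  {θ : C →* MulAut V1} {q : C → (A →ₗ[F] S)}

/-- a chosen family -/
def fam (h : SG F α i θ q) (s : S) : C → A := (h.sur s).choose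

theorem fam_mem (h : SG F α i θ q) (s : S) (c : C) : fam h s c ∈ Nt F α i (θ c) :=
  (h.sur s).choose_spec.1 c

theorem fam_sum (h : SG F α i θ q) (s : S) : ∑ c, q c (fam h s c) = s :=
  (h.sur s).choose_spec.2

open Classical in
theorem single_mem (x : C) (a : A) (ha : a ∈ Nt F α i (θ x)) (c : C) :
    (Pi.single x a : C → A) c ∈ Nt F α i (θ c) := by
  by_cases hc : c = x
  · subst hc
    rw [Pi.single_eq_same]
    exact ha
  · rw [Pi.single_eq_of_ne hc]
    exact Submodule.zero_mem _

open Classical in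
theorem single_sum (x : C) (a : A) : ∑ c, q c ((Pi.single x a : C → A) c) = q x a := by
  rw [Finset.sum_eq_single x]
  · rw [Pi.single_eq_same]
  · intro c _ hc
    rw [Pi.single_eq_of_ne hc, map_zero]
  · intro hx
    exact absurd (Finset.mem_univ x) hx

open Classical in
theorem q_zero (h : SG F α i θ q) (x : C) (a : A) (ha : a ∈ Nt F α i (θ x)) :
    q x a = 0 ↔ a ∈ It F α i (θ x) := by
  have h1 := h.ker (Pi.single x a) (single_mem x a ha)
  rw [single_sum] at h1
  rw [h1]
  constructor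
  · intro h2
    have h3 := h2 x
    rwa [Pi.single_eq_same] at h3
  · intro h2 c
    by_cases hc : c = x
    · subst hc
      rw [Pi.single_eq_same]
      exact h2
    · rw [Pi.single_eq_of_ne hc]
      exact Submodule.zero_mem _

/-- uniqueness -/
theorem fam_uniq (h : SG F α i θ q) (s : S) (a : C → A) (ha : ∀ c, a c ∈ Nt F α i (θ c))
    (hs : ∑ c, q c (a c) = s) (x : C) : q x (fam h s x) = q x (a x) := by
  have h1 : ∑ c, q c (fam h s c - a c) = 0 := by
    simp only [map_sub, Finset.sum_sub_distrib]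
    rw [fam_sum, hs, sub_self]
  have h2 : ∀ c, fam h s c - a c ∈ Nt F α i (θ c) := fun c =>
    Submodule.sub_mem _ (fam_mem h s c) (ha c)
  have h3 := (h.ker _ h2).1 h1 x
  have h4 := (q_zero h x _ (h2 x)).2 h3
  rw [map_sub, sub_eq_zero] at h4
  exact h4

/-- the projection -/
def prj (h : SG F α i θ q) (x : C) : S →ₗ[F] S where
  toFun := fun s => q x (fam h s x)
  map_add' := by
    intro s s'
    rw [fam_uniq h (s + s') (fun c => fam h s c + fam h s' c)
      (fun c => Submodule.add_mem _ (fam_mem h s c) (fam_mem h s' c)), map_add]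
    simp only [map_add, Finset.sum_add_distrib]
    rw [fam_sum, fam_sum]
  map_smul' := by
    intro r s
    rw [fam_uniq h (r • s) (fun c => r • fam h s c)
      (fun c => Submodule.smul_mem _ _ (fam_mem h s c)), map_smul]
    · rfl
    · simp only [map_smul]
      rw [← Finset.smul_sum, fam_sum]

open Classical in
theorem prj_same (h : SG F α i θ q) (x : C) (a : A) (ha : a ∈ Nt F α i (θ x)) :
    prj h x (q x a) = q x a := by
  change q x (fam h (q x a) x) = q x a
  rw [fam_uniq h (q x a) (Pi.single x a) (single_mem x a ha) (single_sum x a), Pi.single_eq_same]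

open Classical in
theorem prj_ne (h : SG F α i θ q) (x x' : C) (hx : x ≠ x') (a : A)
    (ha : a ∈ Nt F α i (θ x')) : prj h x (q x' a) = 0 := by
  change q x (fam h (q x' a) x) = 0
  rw [fam_uniq h (q x' a) (Pi.single x' a) (single_mem x' a ha) (single_sum x' a),
    Pi.single_eq_of_ne hx, map_zero]

theorem prj_fam (h : SG F α i θ q) (x : C) (s : S) : prj h x s = q x (fam h s x) := rfl

end three

/-- Row SGY. -/
theorem sgy (caz : CazStmt) : SgyStmt := by
  intro F V V1 C A S _ _ _ _ _ _ _ _ _ _ α i θ q l Y hl h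
  obtain ⟨z, z', hzz, hz⟩ := caz F V1 l Y hl
  have hN : ∀ (c : C) (a : A), a ∈ Nx (il α i Y.y) (Y.χ.comp θ) c ↔ a ∈ Nt F α i (θ c) :=
    nx_mem α i θ Y
  have hJ : ∀ (c : C) (a : A), a ∈ Jx (il α i Y.y) l (Y.χ.comp θ) c ↔ a ∈ It F α i (θ c) :=
    it_jx α i θ Y z z' hzz hz
  have h1 : (1 : A) ∈ Nt F α i (θ 1) := (hN 1 1).1 (Nx_one _ _)
  refine ⟨{
    c := prj h
    cs := fun s => fam_sum h s
    ci := fun x s => prj_same h x _ (fam_mem h s x)
    co := fun x x' s hx => prj_ne h x x' hx _ (fam_mem h s x')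
    c1 := ?_
    cm := ?_
    p := fun x => (q x).comp (Nx (il α i Y.y) (Y.χ.comp θ) x).subtype
    pc := fun x a => prj_same h x _ ((hN x a).1 a.2)
    ps := fun x s => ⟨⟨fam h s x, (hN x _).2 (fam_mem h s x)⟩, rfl⟩
    ker := fun x a => (q_zero h x (a : A) ((hN x a).1 a.2)).trans (hJ x a).symm
    one := h.one
    mul := fun x x' a b => (h.mul x x' (a : A) ((hN x a).1 a.2) (b : A) ((hN x' b).1 b.2)).symm },
    fun c a => rfl⟩
  · have h2 := prj_same h 1 1 h1
    rwa [h.one] at h2
  · intro x x' s s'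
    have hm : fam h s x * fam h s' x' ∈ Nt F α i (θ (x * x')) :=
      (hN _ _).1 (Nx_mul ((hN _ _).2 (fam_mem h s x)) ((hN _ _).2 (fam_mem h s' x')))
    rw [prj_fam h x s, prj_fam h x' s', ← h.mul x x' _ (fam_mem h s x) _ (fam_mem h s' x')]
    exact prj_same h (x * x') _ hm

end Pool.Agent.PFE.H58
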