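import Pool.Agent.PFE.StmtsE1

/-! Squad PFE, part E1, row RHO: the multiplicative section of the local algebra. -/

set_option autoImplicit false

open scoped BigOperators

noncomputable section

namespace Pool.Agent.PFE.H58

open Pool.Agent.PFE Pool.Agent.PFC.B1

section sec

variable {K A X S : Type} [Field K] [Ring A] [Algebra K A] [Group X] [Fintype X] [Ring S]
    [Algebra K S] {y : A} {l : ℕ} {χ : X →* K} (L : LS K A X S y l χ)

/-- a graded linear section with `1 ↦ 1` -/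
def Good (ρ : S →ₗ[K] A) : Prop :=
  ρ 1 = 1 ∧ ∃ h : ∀ x s, ρ (L.c x s) ∈ Nx y χ x,
    ∀ x s, L.p x ⟨ρ (L.c x s), h x s⟩ = L.c x s

variable {L}

theorem Good.mem {ρ : S →ₗ[K] A} (hρ : Good L ρ) {x : X} {s : S} (hs : L.c x s = s) :
    ρ s ∈ Nx y χ x := by
  obtain ⟨_, h, _⟩ := hρ
  rw [← hs]
  exact h x s

theorem Good.p_eq {ρ : S →ₗ[K] A} (hρ : Good L ρ) {x : X} {s : S} (hs : L.c x s = s)
    (hm : ρ s ∈ Nx y χ x) : L.p x ⟨ρ s, hm⟩ = s := by
  obtain ⟨_, h, hp⟩ := hρ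
  have h1 := hp x s
  have h2 : (⟨ρ s, hm⟩ : Nx y χ x) = ⟨ρ (L.c x s), h x s⟩ := Subtype.ext (by
    show ρ s = ρ (L.c x s)
    rw [hs])
  rw [h2, h1, hs]

theorem Good.defect {ρ : S →ₗ[K] A} (hρ : Good L ρ) {x x' : X} {a b : S} (ha : L.c x a = a)
    (hb : L.c x' b = b) : ρ (a * b) - ρ a * ρ b ∈ Jx y l χ (x * x') := by
  have hab : L.c (x * x') (a * b) = a * b := by
    have h := L.cm x x' a b
    rw [ha, hb] at h
    exact h
  have h1 := hρ.mem hab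
  have h2 := hρ.mem ha
  have h3 := hρ.mem hb
  have h4 : (⟨ρ (a * b) - ρ a * ρ b, Submodule.sub_mem _ h1 (Nx_mul h2 h3)⟩ : Nx y χ (x * x')) =
      ⟨ρ (a * b), h1⟩ - ⟨ρ a * ρ b, Nx_mul h2 h3⟩ := rfl
  refine (L.ker (x * x') ⟨ρ (a * b) - ρ a * ρ b, Submodule.sub_mem _ h1 (Nx_mul h2 h3)⟩).1 ?_
  rw [h4, map_sub, hρ.p_eq hab h1]
  have h5 := L.mul x x' ⟨ρ a, h2⟩ ⟨ρ b, h3⟩
  rw [hρ.p_eq ha h2, hρ.p_eq hb h3] at h5
  rw [← h5, sub_self]

/-- a graded change by elements of the ideal keeps the section -/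
theorem Good.change {ρ ψ : S →ₗ[K] A} (hρ : Good L ρ)
    (hJN : ∀ x b, b ∈ Jx y l χ x → b ∈ Nx y χ x) (h1 : ψ 1 = 1)
    (hψ : ∀ x s, L.c x s = s → ψ s - ρ s ∈ Jx y l χ x) : Good L ψ := by
  have hm : ∀ x s, ψ (L.c x s) ∈ Nx y χ x := by
    intro x s
    have h2 := hJN _ _ (hψ x (L.c x s) (L.ci x s))
    have h3 := hρ.mem (L.ci x s)
    have h4 : ψ (L.c x s) = (ψ (L.c x s) - ρ (L.c x s)) + ρ (L.c x s) := by abel
    rw [h4]
    exact Submodule.add_mem _ h2 h3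
  refine ⟨h1, hm, fun x s => ?_⟩
  have h2 := hψ x (L.c x s) (L.ci x s)
  have h3 := hρ.mem (L.ci x s)
  have h4 : (⟨ψ (L.c x s), hm x s⟩ : Nx y χ x) =
      ⟨ψ (L.c x s) - ρ (L.c x s), hJN _ _ h2⟩ + ⟨ρ (L.c x s), h3⟩ :=
    Subtype.ext (by
      show ψ (L.c x s) = (ψ (L.c x s) - ρ (L.c x s)) + ρ (L.c x s)
      abel)
  rw [h4, map_add, (L.ker x ⟨ψ (L.c x s) - ρ (L.c x s), hJN _ _ h2⟩).2 h2, zero_add,
    hρ.p_eq (L.ci x s) h3]

end sec

/-- the Casimir element -/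
theorem casimir {K S Ω A : Type} [Field K] [Ring S] [Algebra K S] [Fintype Ω] [AddCommGroup A]
    [Module K A] (f : FS K S Ω) (B : S →ₗ[K] S →ₗ[K] A) (a : S) :
    ∑ k, B (f.b k) (f.b' k * a) = ∑ k, B (a * f.b k) (f.b' k) := by
  have h1 : ∀ k, B (a * f.b k) (f.b' k) =
      ∑ j, f.lam (f.b' j * (a * f.b k)) • B (f.b j) (f.b' k) := by
    intro k
    conv_lhs => rw [← f.h1 (a * f.b k)]
    rw [map_sum, LinearMap.sum_apply]
    refine Finset.sum_congr rfl fun j _ => ?_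
    rw [map_smul, LinearMap.smul_apply]
  have h2 : ∀ j, B (f.b j) (f.b' j * a) =
      ∑ k, f.lam (f.b' j * (a * f.b k)) • B (f.b j) (f.b' k) := by
    intro j
    conv_lhs => rw [← f.h2 (f.b' j * a)]
    rw [map_sum]
    refine Finset.sum_congr rfl fun k _ => ?_
    rw [map_smul, mul_assoc]
  simp only [h1, h2]
  exact Finset.sum_comm

theorem rho (hlsc : LscStmt) (hnws : NwsStmt) (hjpr : JprStmt) (htxa : TxaStmt) : RhoStmt := by
  intro K A X S J Ω Ω' _ _ _ _ _ _ _ _ _ _ y l χ D L F hM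
  have hl : 1 ≤ l := le_trans (by norm_num) D.hl
  obtain ⟨hJ1, hJ2, hJ3, hJ4⟩ := hjpr K A X y l χ hl D.yl D.χl
  obtain ⟨_, _, _, hT4, hT5⟩ := htxa K A X y l χ hl D.yl D.χl
  obtain ⟨ρ0, hρ01, hρ0, hρ0p⟩ := hlsc K A X S y l χ L hl D.yl D.χl hM
  have hg0 : Good L ρ0 := ⟨hρ01, hρ0, hρ0p⟩
  -- decomposition into homogeneous parts
  have hdec : ∀ (ρ : S →ₗ[K] A) (s : S), ρ s = ∑ x, ρ (L.c x s) := by
    intro ρ s
    rw [← map_sum, L.cs]
  have main : ∀ n : ℕ, ∃ ρ : S →ₗ[K] A, Good L ρ ∧ ∀ a b, ρ (a * b) - ρ a * ρ b ∈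
      JP y l χ (2 ^ n) := by
    intro n
    induction n with
    | zero =>
      refine ⟨ρ0, hg0, fun a b => ?_⟩
      have h1 : ρ0 (a * b) - ρ0 a * ρ0 b = ∑ x, ∑ x', (ρ0 (L.c x a * L.c x' b) -
          ρ0 (L.c x a) * ρ0 (L.c x' b)) := by
        have h2 : a * b = ∑ x, ∑ x', L.c x a * L.c x' b := by
          rw [← Finset.sum_mul_sum, L.cs, L.cs]
        rw [h2, hdec ρ0 a, hdec ρ0 b, Finset.sum_mul_sum, map_sum, ← Finset.sum_sub_distrib]
        refine Finset.sum_congr rfl fun x _ => ?_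
        rw [map_sum, ← Finset.sum_sub_distrib]
      rw [h1, pow_zero]
      exact Submodule.sum_mem _ fun x _ => Submodule.sum_mem _ fun x' _ =>
        hJ1 _ _ (hg0.defect (L.ci x a) (L.ci x' b))
    | succ n ih =>
      obtain ⟨ρ, hg, hD⟩ := ih
      have hone : (1 : ℕ) ≤ 2 ^ n := Nat.one_le_two_pow
      have hu : ∀ o, L.c (F.deg o) (F.f.b o * F.w) = F.f.b o * F.w := by
        intro o
        have h := L.cm (F.deg o) 1 (F.f.b o) F.w
        rw [mul_one, F.gb, F.w1] at h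
        exact h
      obtain ⟨ψ, hψ, hψ1, hψm⟩ := hnws K A S Ω (fun o => F.f.b o * F.w) (fun o => F.f.b' o)
        (JP y l χ (2 ^ n)) (JP y l χ (2 ^ (n + 1))) ρ F.sep
        (by
          intro B a
          have h := casimir F.f (B.comp (LinearMap.mulRight K F.w)) a
          simp only [LinearMap.comp_apply, LinearMap.mulRight_apply] at h
          rw [h]
          exact Finset.sum_congr rfl fun k _ => by rw [mul_assoc])
        hg.1 hD
        (by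
          intro a p hp
          rw [hdec ρ a, Finset.sum_mul]
          exact Submodule.sum_mem _ fun x _ => hJ3 _ x _ _ hone (hg.mem (L.ci x a)) hp)
        (by
          intro p q hp hq
          have h := hJ2 _ _ _ _ hp hq
          rw [pow_succ, mul_two]
          exact h)
      refine ⟨ψ, hg.change hT4 hψ1 ?_, hψm⟩
      intro x s hs
      rw [hψ, add_sub_cancel_left]
      refine Submodule.sum_mem _ fun o _ => ?_
      have h1 := hg.mem (hu o)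
      have h2 := hg.defect (F.gb' o) hs
      have h3 := (hT5 _ _ _ _ h1 h2).1
      rw [mul_inv_cancel_left] at h3
      exact h3
  obtain ⟨M, hM⟩ := hM
  obtain ⟨n, hn⟩ : ∃ n : ℕ, M ≤ 2 ^ n := ⟨M, (Nat.lt_two_pow_self).le⟩
  obtain ⟨ρ, hg, hD⟩ := main n
  have hmul : ∀ a b, ρ (a * b) = ρ a * ρ b := by
    intro a b
    have h := hD a b
    rw [hJ4 M _ hn hM, Submodule.mem_bot] at h
    exact sub_eq_zero.1 h
  obtain ⟨h1, hm, hp⟩ := hg
  exact ⟨⟨AlgHom.ofLinearMap ρ h1 hmul, hm, hp⟩⟩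

end Pool.Agent.PFE.H58
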